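import Pool.Agent.W996.MW.Stm

/-!
# MW-ENC: the lower set generated by the code words of a set
-/

open scoped ComplexOrder Matrix
open Classical

namespace Pool.Agent.W698.MW

open Pool.Agent.W996.MW

variable {κ : Type} [Fintype κ]

/-- Code words of `x` correspond to families of nonempty sets of marks. -/
def codeEquiv (l : ℕ) (x : κ → Bool) :
    {y : κ × Bool × Fin l → Bool // Codes x y} ≃
      (κ → {f : Fin l → Bool // f ≠ fun _ => false}) where
  toFun y := fun i => ⟨fun t => y.1 (i, x i, t), by
    obtain ⟨t, ht⟩ := y.2.2 i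
    intro h
    have h2 : y.1 (i, x i, t) = false := congrFun h t
    rw [h2] at ht
    exact absurd ht (by simp)⟩
  invFun F := ⟨fun p => if p.2.1 = x p.1 then (F p.1).1 p.2.2 else false, by
    constructor
    · intro i t
      simp
    · intro i
      have h := (F i).2
      by_contra hc
      push Not at hc
      apply h
      funext t
      have := hc t
      simpa using this⟩
  left_inv y := by
    apply Subtype.ext
    funext p
    obtain ⟨i, b, t⟩ := p
    by_cases hb : b = x i
    · subst hb
      simp
    · have hb' : b = !x i := by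
        cases b <;> cases h : x i <;> simp_all
      have := y.2.1 i t
      simp only
      rw [if_neg hb, hb', this]
  right_inv F := by
    funext i
    apply Subtype.ext
    funext t
    simp

theorem card_codes (l : ℕ) (x : κ → Bool) :
    (Finset.univ.filter fun y : κ × Bool × Fin l → Bool => Codes x y).card =
      (2 ^ l - 1) ^ Fintype.card κ := by
  rw [← Fintype.card_subtype, Fintype.card_congr (codeEquiv l x)]
  rw [Fintype.card_pi]
  have : Fintype.card {f : Fin l → Bool // f ≠ fun _ => false} = 2 ^ l - 1 := by
    have h := Fintype.card_subtype_compl (fun f : Fin l → Bool => f = fun _ => false)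
    simp only [Fintype.card_subtype_eq, Fintype.card_fun, Fintype.card_bool,
      Fintype.card_fin] at h
    convert h using 1
  simp [this]

/-- The lower set generated by the code words of `S`. -/
noncomputable def low (l : ℕ) (S : Finset (κ → Bool)) : Finset (κ × Bool × Fin l → Bool) :=
  Finset.univ.filter fun y => ∃ x ∈ S, ∀ i t, y (i, !x i, t) = false

theorem card_low (l : ℕ) (S : Finset (κ → Bool)) :
    (low l S).card ≤ S.card * 2 ^ (l * Fintype.card κ) := by
  have hsub : low l S ⊆ S.biUnion fun x =>
      Finset.univ.filter fun y : κ × Bool × Fin l → Bool => ∀ i t, y (i, !x i, t) = false := by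
    intro y hy
    simp only [low, Finset.mem_filter, Finset.mem_univ, true_and] at hy
    simp only [Finset.mem_biUnion, Finset.mem_filter, Finset.mem_univ, true_and]
    exact hy
  refine (Finset.card_le_card hsub).trans ?_
  refine Finset.card_biUnion_le_card_mul _ _ _ ?_
  intro x _
  have hinj : Set.InjOn (fun (y : κ × Bool × Fin l → Bool) => fun q : κ × Fin l => y (q.1, x q.1, q.2))
      ((Finset.univ.filter fun y : κ × Bool × Fin l → Bool => ∀ i t, y (i, !x i, t) = false :
        Finset _) : Set (κ × Bool × Fin l → Bool)) := by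
    intro y hy z hz h
    simp only [Finset.coe_filter, Finset.mem_univ, true_and, Set.mem_setOf_eq] at hy hz
    funext p
    obtain ⟨i, b, t⟩ := p
    by_cases hb : b = x i
    · subst hb
      exact congrFun h (i, t)
    · have hb' : b = !x i := by
        cases b <;> cases h : x i <;> simp_all
      rw [hb', hy i t, hz i t]
  have := Finset.card_le_card_of_injOn (t := (Finset.univ : Finset (κ × Fin l → Bool))) _
    (fun y _ => Finset.mem_univ _) hinj
  refine this.trans ?_
  simp [Fintype.card_prod, mul_comm]

theorem codes_mem_low {l : ℕ} {S : Finset (κ → Bool)} {x : κ → Bool}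
    {y : κ × Bool × Fin l → Bool} (hy : Codes x y) : y ∈ low l S ↔ x ∈ S := by
  constructor
  · intro h
    simp only [low, Finset.mem_filter, Finset.mem_univ, true_and] at h
    obtain ⟨x', hx', h⟩ := h
    have : x' = x := by
      funext i
      obtain ⟨t, ht⟩ := hy.2 i
      by_contra hne
      have hx : x i = !x' i := by
        cases h1 : x i <;> cases h2 : x' i <;> simp_all
      rw [hx, h i t] at ht
      exact absurd ht (by simp)
    exact this ▸ hx'
  · intro h
    simp only [low, Finset.mem_filter, Finset.mem_univ, true_and]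
    exact ⟨x, h, hy.1⟩

theorem enc_thm : S_ENC := by
  intro κ _ _ l hl S hS
  refine ⟨low l S, ?_, ?_, ?_⟩
  · obtain ⟨x, hx⟩ := hS
    refine ⟨fun _ => false, ?_⟩
    simp only [low, Finset.mem_filter, Finset.mem_univ, true_and]
    exact ⟨x, hx, by simp⟩
  · intro a b hba ha
    simp only [low, Finset.coe_filter, Finset.mem_univ, true_and, Set.mem_setOf_eq] at ha ⊢
    obtain ⟨x, hx, h⟩ := ha
    refine ⟨x, hx, fun i t => ?_⟩
    have h1 := hba (i, !x i, t)
    rw [h i t] at h1
    exact le_antisymm h1 (Bool.false_le _)
  · have hR1 : (1 : ℝ) ≤ 2 ^ l - 1 := by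
      have : (2 : ℝ) ^ 1 ≤ 2 ^ l := pow_le_pow_right₀ (by norm_num) hl
      linarith
    set R : ℝ := ((2 : ℝ) ^ l - 1) ^ Fintype.card κ with hR
    have hRpos : 0 < R := pow_pos (by linarith) _
    have hSpos : (0 : ℝ) < (S.card : ℝ) := by exact_mod_cast hS.card_pos
    have hDne : (low l S).Nonempty := by
      obtain ⟨x, hx⟩ := hS
      refine ⟨fun _ => false, ?_⟩
      simp only [low, Finset.mem_filter, Finset.mem_univ, true_and]
      exact ⟨x, hx, by simp⟩
    have hDpos : (0 : ℝ) < ((low l S).card : ℝ) := by exact_mod_cast hDne.card_pos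
    have hDle : ((low l S).card : ℝ) ≤ (S.card : ℝ) * 2 ^ (l * Fintype.card κ) := by
      exact_mod_cast card_low l S
    refine ⟨Real.sqrt (R * S.card / (low l S).card), Real.sqrt_nonneg _, ?_, ?_⟩
    · rw [Real.sq_sqrt (by positivity)]
      rw [le_div_iff₀ hDpos]
      have hpow : (1 - (1 / 2 : ℝ) ^ l) ^ Fintype.card κ * 2 ^ (l * Fintype.card κ) = R := by
        rw [hR, pow_mul, ← mul_pow]
        congr 1
        rw [sub_mul, one_mul, ← mul_pow]
        norm_num
      have h0 : 0 ≤ (1 - (1 / 2 : ℝ) ^ l) ^ Fintype.card κ := by
        apply pow_nonneg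
        have : (1 / 2 : ℝ) ^ l ≤ 1 := pow_le_one₀ (by norm_num) (by norm_num)
        linarith
      calc (1 - (1 / 2 : ℝ) ^ l) ^ Fintype.card κ * ((low l S).card : ℝ)
          ≤ (1 - (1 / 2 : ℝ) ^ l) ^ Fintype.card κ *
              ((S.card : ℝ) * 2 ^ (l * Fintype.card κ)) :=
            mul_le_mul_of_nonneg_left hDle h0
        _ = R * S.card := by rw [← hpow]; ring
    · funext x
      have hterm : ∀ y : κ × Bool × Fin l → Bool,
          (enc l : Matrix (κ × Bool × Fin l → Bool) (κ → Bool) ℂ)ᴴ x y *
            subsetState (low l S) y =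
          if Codes x y then (if x ∈ S then
            (((Real.sqrt R)⁻¹ * (Real.sqrt ((low l S).card : ℝ))⁻¹ : ℝ) : ℂ) else 0) else 0 := by
        intro y
        rw [Matrix.conjTranspose_apply]
        unfold enc subsetState
        by_cases hc : Codes x y
        · rw [if_pos hc, if_pos hc]
          by_cases hx : x ∈ S
          · rw [if_pos ((codes_mem_low hc).2 hx), if_pos hx]
            rw [Complex.star_def, Complex.conj_ofReal]
            push_cast
            rfl
          · rw [if_neg (fun h => hx ((codes_mem_low hc).1 h)), if_neg hx, mul_zero]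
        · rw [if_neg hc, if_neg hc]
          simp
      have hsum : ((enc l : Matrix (κ × Bool × Fin l → Bool) (κ → Bool) ℂ)ᴴ *ᵥ
          subsetState (low l S)) x = ∑ y : κ × Bool × Fin l → Bool,
          (enc l : Matrix (κ × Bool × Fin l → Bool) (κ → Bool) ℂ)ᴴ x y *
            subsetState (low l S) y := rfl
      rw [hsum, Finset.sum_congr rfl (fun y _ => hterm y)]
      rw [← Finset.sum_filter, Finset.sum_const]
      have hcard := card_codes l x
      rw [Pi.smul_apply, smul_eq_mul]
      unfold subsetState
      by_cases hx : x ∈ S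
      · rw [if_pos hx, if_pos hx, nsmul_eq_mul, ← Complex.ofReal_natCast,
          ← Complex.ofReal_mul, ← Complex.ofReal_mul]
        congr 1
        have hRn : (((Finset.univ.filter fun y : κ × Bool × Fin l → Bool =>
            Codes x y).card : ℕ) : ℝ) = R := by
          have h1 : (Finset.univ.filter fun y : κ × Bool × Fin l → Bool =>
              Codes x y).card = (2 ^ l - 1) ^ Fintype.card κ := by
            convert hcard
          rw [h1, hR, Nat.cast_pow, Nat.cast_sub Nat.one_le_two_pow]
          norm_num
        have e1 : Real.sqrt (R * S.card / (low l S).card) =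
            Real.sqrt R * Real.sqrt S.card / Real.sqrt (low l S).card := by
          rw [Real.sqrt_div (by positivity), Real.sqrt_mul hRpos.le]
        rw [e1]
        have hs1 : Real.sqrt (S.card : ℝ) ≠ 0 := (Real.sqrt_pos.2 hSpos).ne'
        have hs2 : Real.sqrt R ≠ 0 := (Real.sqrt_pos.2 hRpos).ne'
        have hs3 : Real.sqrt ((low l S).card : ℝ) ≠ 0 := (Real.sqrt_pos.2 hDpos).ne'
        have hRR : R = Real.sqrt R * Real.sqrt R := (Real.mul_self_sqrt hRpos.le).symm
        have hgoal : R * ((Real.sqrt R)⁻¹ * (Real.sqrt ((low l S).card : ℝ))⁻¹) =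
            Real.sqrt R * Real.sqrt S.card / Real.sqrt (low l S).card *
              (Real.sqrt (S.card : ℝ))⁻¹ := by
          field_simp
          rw [sq, Real.mul_self_sqrt hRpos.le]
        rw [hRn]
        exact hgoal
      · rw [if_neg hx, if_neg hx]
        simp

end Pool.Agent.W698.MW
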